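import Pool.Agent.Helper72.T4.NearDec
import Pool.Agent.Helper72.T4.NearOrd
import Pool.Agent.Helper3.T4.Decode

/-!
# T4' (MP_12a1af), block N: pairs of states with the same node `l`
-/

namespace Pool.Agent.Helper21.T4

open Finset Pool.Agent.Helper5.ET Pool.Agent.Helper27.T4 Pool.Agent.Helper72.T4

theorem sl_le_se (s : ℕ) : sl s ≤ se s := by
  unfold sl se
  exact tau_strictMono.monotone (by omega)

theorem mem_XX {s : ℕ} {x : Fin 3 → ℕ} (h : x ∈ XX s) (f : Fin 3) :
    (x f).Prime ∧ (x f).Coprime (pr f) ∧ (x f) ^ 2 < pr f ^ cnt f (sl s) := by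
  unfold XX at h
  rw [Fintype.mem_piFinset] at h
  have := h f
  rw [Finset.mem_filter] at this
  exact this.2

theorem hv_congr {s : ℕ} (w : Key → ℕ) (f : Fin 3) (x y : Fin 3 → ℕ)
    (h : ∀ j, rk (ordK (sl s)) j < rk (ordK (sl s)) f → x j = y j) : hv s w f x = hv s w f y := by
  unfold hv
  have : mask (pre (sl s) f) x = mask (pre (sl s) f) y := by
    funext g
    unfold mask
    by_cases hg : g ∈ pre (sl s) f
    · rw [if_pos hg, if_pos hg]
      exact h g (mem_pre hg)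
    · rw [if_neg hg, if_neg hg]
  rw [this]

theorem Rp_same (s s' : ℕ) (h : sl s = sl s') (w : Key → ℕ) (R : ℕ)
    (hR : ∀ M : ℕ, (((VV s w) ×ˢ (VV s' w)).filter (fun q => q.1 + q.2 = M)).card ≤ R) (n : ℕ) :
    Rp s s' w n ≤ (∏ f, 2 * (pr f - 1)) * R := by
  classical
  set H := ((XX s ×ˢ VV s w) ×ˢ (XX s' ×ˢ VV s' w)).filter
    (fun t => el s w t.1.1 t.1.2 + el s' w t.2.1 t.2.2 = n) with hH
  have h1 : Rp s s' w n ≤ H.card := by
    unfold Rp
    refine le_trans (Finset.card_le_card ?_) (Finset.card_image_le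
      (f := fun t : ((Fin 3 → ℕ) × ℕ) × ((Fin 3 → ℕ) × ℕ) =>
        (el s w t.1.1 t.1.2, el s' w t.2.1 t.2.2)))
    intro q hq
    rw [Finset.mem_filter, Finset.mem_product] at hq
    obtain ⟨⟨ha, ha'⟩, hsum⟩ := hq
    unfold AA at ha ha'
    rw [Finset.mem_image] at ha ha'
    obtain ⟨t, ht, ht1⟩ := ha
    obtain ⟨t', ht', ht1'⟩ := ha'
    rw [Finset.mem_image]
    refine ⟨(t, t'), ?_, ?_⟩
    · rw [hH, Finset.mem_filter, Finset.mem_product]
      refine ⟨⟨ht, ht'⟩, ?_⟩
      show el s w t.1 t.2 + el s' w t'.1 t'.2 = n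
      rw [ht1, ht1']
      exact hsum
    · exact Prod.ext ht1 ht1'
  have hmem : ∀ t ∈ H, t.1.1 ∈ XX s ∧ t.1.2 ∈ VV s w ∧ t.2.1 ∈ XX s' ∧ t.2.2 ∈ VV s' w ∧
      code s w t.1.1 + code s' w t.2.1 + Nj (sl s) * (t.1.2 + t.2.2) = n := by
    intro t ht
    rw [hH, Finset.mem_filter, Finset.mem_product, Finset.mem_product, Finset.mem_product] at ht
    obtain ⟨⟨⟨a1, a2⟩, a3, a4⟩, a5⟩ := ht
    refine ⟨a1, a2, a3, a4, ?_⟩
    unfold el at a5
    rw [← h] at a5
    rw [← a5]
    ring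
  set φ : ((Fin 3 → ℕ) × ℕ) × ((Fin 3 → ℕ) × ℕ) → (Fin 3 → ℕ × ℕ) :=
    fun t i => (t.1.1 i, t.2.1 i) with hφ
  have h2 : H.card ≤ R * (H.image φ).card := by
    refine Finset.card_le_mul_card_image_of_maps_to (f := φ)
      (fun t ht => Finset.mem_image_of_mem φ ht) R ?_
    intro g _
    refine le_trans ?_ (hR ((n - code s w (fun i => (g i).1) - code s' w (fun i => (g i).2)) /
      Nj (sl s)))
    refine Finset.card_le_card_of_injOn (fun t => (t.1.2, t.2.2)) ?_ ?_
    · intro t ht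
      rw [Finset.mem_coe, Finset.mem_filter] at ht
      obtain ⟨_, b2, _, b4, b5⟩ := hmem t ht.1
      rw [Finset.mem_coe, Finset.mem_filter, Finset.mem_product]
      refine ⟨⟨b2, b4⟩, ?_⟩
      have c1 : (fun i => (g i).1) = t.1.1 := by
        rw [← ht.2]
      have c2 : (fun i => (g i).2) = t.2.1 := by
        rw [← ht.2]
      rw [c1, c2]
      have hpos : 0 < Nj (sl s) := Nj_pos _
      symm
      apply Nat.div_eq_of_eq_mul_right hpos
      show n - code s w t.1.1 - code s' w t.2.1 = Nj (sl s) * (t.1.2 + t.2.2)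
      omega
    · intro t ht t' ht' htt
      rw [Finset.mem_coe, Finset.mem_filter] at ht ht'
      have htt' : (t.1.2, t.2.2) = (t'.1.2, t'.2.2) := htt
      have c1 : t.1.1 = t'.1.1 := by
        funext i
        have := congrFun (ht.2.trans ht'.2.symm) i
        exact congrArg Prod.fst this
      have c2 : t.2.1 = t'.2.1 := by
        funext i
        have := congrFun (ht.2.trans ht'.2.symm) i
        exact congrArg Prod.snd this
      have c3 : t.1.2 = t'.1.2 := (Prod.ext_iff.1 htt').1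
      have c4 : t.2.2 = t'.2.2 := (Prod.ext_iff.1 htt').2
      exact Prod.ext (Prod.ext c1 c3) (Prod.ext c2 c4)
  have h3 : (H.image φ).card ≤ ∏ f, 2 * (pr f - 1) := by
    have h4 := Pool.Agent.Helper3.T4.card_code_pairs_le pr_prime pr_ne_two (av (sl s)) (av (sl s))
      le_rfl (rk (ordK (sl s)))
      (fun i x => ((hv s w i x : ℕ) : ZMod (pr i ^ av (sl s) i)))
      (fun i x => ((hv s' w i x : ℕ) : ZMod (pr i ^ av (sl s) i)))
      (fun i x y hxy => by rw [hv_congr w i x y hxy])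
      (fun i x y hxy => by
        have h5 := hv_congr (s := s') w i x y (fun j hj => hxy j (by rw [h]; exact hj))
        rw [h5])
      (fun i => ((n : ℕ) : ZMod (pr i ^ av (sl s) i))) (H.image φ) ?_
    · refine h4.trans (le_of_eq ?_)
      refine Finset.prod_congr rfl fun i _ => ?_
      rw [Nat.sub_self, Nat.zero_div, pow_zero, mul_one]
    · intro g hg i
      rw [Finset.mem_image] at hg
      obtain ⟨t, ht, rfl⟩ := hg
      obtain ⟨b1, _, b3, _, b5⟩ := hmem t ht
      obtain ⟨d1, d2, d3⟩ := mem_XX b1 i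
      obtain ⟨d4, d5, d6⟩ := mem_XX b3 i
      rw [← h] at d6
      refine ⟨d1, d4, d2, d5, d3, d6, ?_⟩
      have hm : cnt i (sl s) ≤ cnt i (se s) := cnt_mono i (sl_le_se s)
      have hm' : cnt i (sl s) ≤ cnt i (se s') := by
        rw [h]; exact cnt_mono i (sl_le_se s')
      have e1 := code_cast s w t.1.1 i (cnt i (sl s)) hm d2
      have e2 := code_cast s' w t.2.1 i (cnt i (sl s)) hm' d5
      show (Lg (pr i) (cnt i (sl s)) (t.1.1 i) + ((hv s w i t.1.1 : ℕ) : ZMod (pr i ^ cnt i (sl s)))) +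
        (Lg (pr i) (cnt i (sl s)) (t.2.1 i) +
          ((hv s' w i t.2.1 : ℕ) : ZMod (pr i ^ cnt i (sl s)))) =
        ((n : ℕ) : ZMod (pr i ^ cnt i (sl s)))
      rw [← e1, ← e2, ← b5]
      have hdvd : pr i ^ cnt i (sl s) ∣ Nj (sl s) := pow_dvd_NN pr (av (sl s)) i
      have hz : ((Nj (sl s) : ℕ) : ZMod (pr i ^ cnt i (sl s))) = 0 := by
        rw [ZMod.natCast_eq_zero_iff]
        exact hdvd
      push_cast
      rw [hz]
      ring
  calc Rp s s' w n ≤ H.card := h1
    _ ≤ R * (H.image φ).card := h2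
    _ ≤ R * ∏ f, 2 * (pr f - 1) := Nat.mul_le_mul_left _ h3
    _ = _ := Nat.mul_comm _ _

end Pool.Agent.Helper21.T4
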